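import Pool.Agent.Run7.h982.QP.M2

set_option autoImplicit false
set_option linter.unusedSectionVars false

namespace Pool.Agent.Run7.h982.QP

open Finset Filter Topology MeasureTheory ProbabilityTheory
open scoped InnerProductSpace ENNReal
open Pool.Agent.K7.H83.MA

universe u

variable {X : Type u} [MeasurableSpace X] [StandardBorelSpace X] {μ : Measure X}
  [IsProbabilityMeasure μ] {r : ℕ} {c : ℕ → Fin r} {T : ℕ → X → X}

/-- the five-fold intersection -/
def five (T : ℕ → X → X) (A : Set X) (m n : ℕ) : Set X :=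
  A ∩ T (m * n) ⁻¹' A ∩ T (m + n) ⁻¹' A ∩ T m ⁻¹' A ∩ T n ⁻¹' A

theorem five_meas (h : Sys c μ T) {A : Set X} (hA : MeasurableSet A) {m n : ℕ} (hm : 0 < m)
    (hn : 0 < n) : MeasurableSet (five T A m n) := by
  unfold five
  exact (((hA.inter ((h.mp _ (Nat.mul_pos hm hn)).measurable hA)).inter
    ((h.mp _ (by omega)).measurable hA)).inter ((h.mp m hm).measurable hA)).inter
    ((h.mp n hn).measurable hA)

theorem inner_five (h : Sys c μ T) {A : Set X} (hA : MeasurableSet A) {m n : ℕ} (hm : 0 < m)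
    (hn : 0 < n) : ⟪iv μ A, mulB μ (ww T (iF A) (iF A) (iF A) m n)
      (koop μ T (m + n) (iv μ A))⟫_ℂ = (μ.real (five T A m n) : ℂ) := by
  classical
  have hA' := iF_BM (X := X) hA
  have h1 := hA'.comp (h.mp (m + n) (by omega)).measurable
  have h2 := ww_BM h hA' hA' hA' hm hn
  unfold iv
  rw [koop_bl (h.mp (m + n) (by omega)) hA', mulB_bl h2 h1, inner_bl hA' (h2.mul h1)]
  have h3 : ∀ x, (starRingEnd ℂ) (iF A x) * (ww T (iF A) (iF A) (iF A) m n x *
      iF A (T (m + n) x)) = (five T A m n).indicator (fun _ => (1 : ℂ)) x := by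
    intro x
    rw [iF_conj]
    unfold ww iF five
    simp only [Set.indicator_apply, Set.mem_inter_iff, Set.mem_preimage]
    by_cases a1 : x ∈ A
    · by_cases a2 : T m x ∈ A
      · by_cases a3 : T n x ∈ A
        · by_cases a4 : T (m * n) x ∈ A
          · by_cases a5 : T (m + n) x ∈ A
            · simp [a1, a2, a3, a4, a5]
            · simp [a5]
          · simp [a4]
        · simp [a3]
      · simp [a2]
    · simp [a1]
  simp only [h3]
  rw [integral_indicator (five_meas h hA hm hn)]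
  simp

theorem RN_eq (h : Sys c μ T) {A : Set X} (hA : MeasurableSet A) (N : ℕ) :
    RN μ T A N = (N : ℝ)⁻¹ * (N : ℝ)⁻¹ * ∑ m ∈ Ioc 0 N, ∑ n ∈ Ioc 0 N,
      μ.real (five T A m n) := by
  unfold RN
  congr 1
  refine Finset.sum_congr rfl fun m hm => Finset.sum_congr rfl fun n hn => ?_
  rw [inner_five h hA (mem_Ioc.1 hm).1 (mem_Ioc.1 hn).1, Complex.ofReal_re]

theorem RN_conv (h : Sys c μ T) {A : Set X} (hA : MeasurableSet A) :
    ∃ L : ℝ, Tendsto (RN μ T A) atTop (𝓝 L) := by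
  have hA' := iF_BM (X := X) hA
  obtain ⟨V, hV⟩ := SN_conv h hA' hA' hA' (iv μ A)
  have h1 := (Tendsto.inner (𝕜 := ℂ) (tendsto_const_nhds (x := iv μ A)) hV)
  have h2 := (Complex.continuous_re.tendsto _).comp h1
  refine ⟨_, h2.congr fun N => ?_⟩
  simp only [Function.comp_apply]
  rw [SN_apply, inner_smul_right]
  unfold RN
  have a1 : ((N : ℂ)⁻¹ * (N : ℂ)⁻¹) = (((N : ℝ)⁻¹ * (N : ℝ)⁻¹ : ℝ) : ℂ) := by push_cast; rfl
  rw [a1, Complex.re_ofReal_mul]
  simp only [inner_sum, Complex.re_sum]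

theorem limit_pos (hMAIN : S_MAIN.{u}) (h : Sys c μ T) {A : Set X} (hA : MeasurableSet A)
    (hpos : 0 < μ.real A) : ∃ L : ℝ, 0 < L ∧ Tendsto (RN μ T A) atTop (𝓝 L) := by
  obtain ⟨L, hL⟩ := RN_conv h hA
  obtain ⟨δ, hδ, N₀, hN₀⟩ := hMAIN X μ r c T h A hA hpos
  refine ⟨L, lt_of_lt_of_le hδ (ge_of_tendsto hL ?_), hL⟩
  exact eventually_atTop.2 ⟨N₀, fun N hN => hN₀ N hN⟩

end Pool.Agent.Run7.h982.QP
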