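import Pool.Agent.K7.H83.MA.Main

/-!
# Interface: positivity for `m, n, m + n, m n` in finitely generated multiplicative actions

Question 2 of MP_57adf2_an.  The limit of
`R_N(A) = N⁻² ∑_{m, n ≤ N} μ(A ∩ T_{mn}⁻¹ A ∩ T_{m+n}⁻¹ A ∩ T_m⁻¹ A ∩ T_n⁻¹ A)` is positive.
The library `Pool.Agent.K7.H83.MA` (starting tree, answers question 1) is used throughout.

Sketch. Call a vector `y` *fixed along a progression* (`Per1`) if there are `Q` and a sparse set `E`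
of primes with `u_n y = y` for all `n ≡ 1 (mod Q)` without prime factor in `E`; let `Z` be the
closure of these vectors (`ZZ`). Vectors orthogonal to `Z` have vanishing averages along all
progressions (`S_APE`). Let `f` be the projection of `1_A` to `Z`. It is nonnegative (`S_POS`) and
`∫_A f = ‖f‖² > 0`; so `A' = A ∩ {f > ε}` has positive measure for some `ε > 0`. Restrict `m` to
`Q^k m'`, `m'` of label `0`, and `n` to `n ≡ 1 (mod Q)`; then `m + n ≡ 1 (mod Q)` and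
`T_{m+n} 1_A` may be replaced by `f` (`S_STEP1`). The remaining average is at least `ε` times the
average of `μ(B_n ∩ T_m⁻¹ B_n)`, `B_n = A' ∩ T_n⁻¹ A'`; it is evaluated by the cube theorem of the
library (`S_CUBE`), and a weighted sum over `k` is positive (`S_VDC`), with a bound which does not
depend on `Q`, relative to the density of the pairs `(m, n)`.

Every piece is a closed proposition `S_XXX`; prove `theorem t_XXX : (hypotheses) → S_XXX`.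
-/

set_option autoImplicit false
set_option linter.unusedSectionVars false

namespace Pool.Agent.Run7.h982.QP

open Finset Filter Topology MeasureTheory ProbabilityTheory
open scoped InnerProductSpace ENNReal
open Pool.Agent.K7.H83.MA

universe u

/-- the integers `0 < n ≤ N` which are `1` modulo `Q` -/
def cls (Q N : ℕ) : Finset ℕ := (Ioc 0 N).filter (fun n => n % Q = 1 % Q)

open scoped Classical in
/-- the elements of `cls Q N` which have a prime factor in `E` -/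
noncomputable def bad (E : ℕ → Prop) (Q N : ℕ) : Finset ℕ :=
  (cls Q N).filter (fun n => ∃ p : ℕ, p.Prime ∧ E p ∧ p ∣ n)

section hilbert
variable {H : Type u} [NormedAddCommGroup H] [InnerProductSpace ℂ H] [CompleteSpace H]

/-- fixed along a progression, off a sparse set of primes -/
def Per1 (v : ℕ → H →L[ℂ] H) (y : H) : Prop :=
  ∃ Q : ℕ, 0 < Q ∧ ∃ E : ℕ → Prop, Spa E ∧ ∀ n : ℕ, 0 < n → n % Q = 1 % Q →
    (∀ p : ℕ, p.Prime → p ∣ n → ¬ E p) → v n y = y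

/-- the closure of the span of these vectors -/
noncomputable def ZZ (v : ℕ → H →L[ℂ] H) : Submodule ℂ H :=
  (Submodule.span ℂ {y | Per1 v y}).topologicalClosure

instance (v : ℕ → H →L[ℂ] H) : (ZZ v).HasOrthogonalProjection := by
  unfold ZZ; infer_instance

/-- the projection onto `ZZ` -/
noncomputable def PZ (v : ℕ → H →L[ℂ] H) : H →L[ℂ] H := (ZZ v).starProjection

end hilbert

/-- indicator function -/
noncomputable def iF {X : Type u} (A : Set X) : X → ℂ := A.indicator (fun _ => (1 : ℂ))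

/-- indicator function as a vector -/
noncomputable def iv {X : Type u} [MeasurableSpace X] (μ : Measure X) (A : Set X) : Lp ℂ 2 μ :=
  bl μ (iF A)

/-- the indicator of `A ∩ T_n⁻¹ A` as a vector -/
noncomputable def Bn {X : Type u} [MeasurableSpace X] (μ : Measure X) (T : ℕ → X → X) (A : Set X)
    (n : ℕ) : Lp ℂ 2 μ := bl μ (fun x => iF A x * iF A (T n x))

/-- REL (about 100 lines, only finite sums over primes).
Proof. Tail of the convergent sum: there is `w` with `∑_{p ∈ E, p > w} 1/p ≤ η / 2`; let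
`Q₀ = w !` (or the product of the primes up to `w`). Let `Q₀ ∣ Q` and `n ∈ bad E Q N`, `p ∣ n`,
`E p`. As `n ≡ 1 (mod Q)`, `p` does not divide `Q`, hence `p > w`, `p ≤ N`, and the `n ≤ N` with
`n ≡ 1 (mod Q)`, `p ∣ n` are in one class modulo `p Q`; there are at most `N / (p Q) + 1` of them.
So the cardinality is at most `(N / Q) (η / 2) + #{p ≤ N prime, E p}`. For fixed `Q` the last number
is at most `(η / (2 Q)) N` for large `N`: take `w'` with `∑_{p ∈ E, p > w'} 1/p ≤ η / (4 Q)`; the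
number is at most `w' + ∑_{w' < p ≤ N} N / p ≤ w' + N η / (4 Q)`. (Compare `good` and `cnt_dvd` in
`MA.Good`.) -/
def S_REL : Prop := ∀ E : ℕ → Prop, Spa E → ∀ η : ℝ, 0 < η → ∃ Q₀ : ℕ, 0 < Q₀ ∧
  ∀ Q : ℕ, 0 < Q → Q₀ ∣ Q → ∃ N₀ : ℕ, ∀ N : ℕ, N₀ ≤ N →
    ((bad E Q N).card : ℝ) ≤ η * ((N : ℝ) / Q)

/-- APE (about 250 lines, mostly a copy of `MA.Ape` and of a part of `MA.Per`).
Proof. Repeat the proofs of `ape_A`, `ape_B`, `ape_B'`, `ape_of_orth` (`MA.Ape`) with `NPer`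
replaced by `Per1`. The only place where `NPer` is used is the end of `ape_A`: `eig_NPer` has to be
replaced by: if `u (π i) y = z i • y` for all large colours `i`, and `Gd c Q ψ i (z i)`, then
`Per1 u y`. This follows from the formula `hform` in the proof of `eig_NPer` (`MA.Per`):
`u n y = ψ (- up Q E n) • u (prt E n) y` for all `n > 0`, with the sparse set
`E p = (bu c Q ψ p * z (c p) ≠ 1)`; if `n ≡ 1 (mod Q)` has no prime factor in `E` then `prt E n = 1`,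
`fr E n = n` (`prt_fr`) and `up Q E n = 1` (`fr_up`), so `u n y = y`. -/
def S_APE : Prop := ∀ (H : Type u) [NormedAddCommGroup H] [InnerProductSpace ℂ H] [CompleteSpace H]
  (r : ℕ) (c : ℕ → Fin r) (v : ℕ → H →L[ℂ] H), FG c v → ∀ F : H,
  (∀ y, Per1 v y → ⟪y, F⟫_ℂ = 0) → ApeS (fun k => v k F)

/-- NPQ (about 100 lines), hypothesis `S_REL`.
Proof. The vectors with `Per1` form a subspace: if `y`, `y'` are fixed with `(Q₁, E₁)` and
`(Q₂, E₂)`, then `a y + b y'` is fixed with `(Q₁ Q₂, E₁ ∨ E₂)` (`Spa.or`); so the span is the set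
itself and `h` is a limit of such vectors. Let `y` be one of them with `2 ‖h - y‖ ≤ η / 4`. Then
`‖u_n h - h‖ ≤ 2 ‖h - y‖ + ‖u_n y - y‖` (`u_n` is an isometry, `uni_norm`), and for `n ≡ 1 (mod Q)`
with `Q₁ ∣ Q` the last term is `0` unless `n ∈ bad E₁ Q N`, when it is at most `2 ‖y‖`. Use
`S_REL` with `η / (4 (2 ‖y‖ + 1))`, `Q₀` multiplied by `Q₁`, and `#(cls Q N) ≤ N / Q + 1`. -/
def S_NPQ : Prop := ∀ (H : Type u) [NormedAddCommGroup H] [InnerProductSpace ℂ H] [CompleteSpace H]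
  (r : ℕ) (c : ℕ → Fin r) (v : ℕ → H →L[ℂ] H), FG c v → ∀ h : H, h ∈ ZZ v → ∀ η : ℝ, 0 < η →
  ∃ Q₀ : ℕ, 0 < Q₀ ∧ ∀ Q : ℕ, 0 < Q → Q₀ ∣ Q → ∃ N₀ : ℕ, ∀ N : ℕ, N₀ ≤ N →
    ∑ n ∈ cls Q N, ‖v n h - h‖ ≤ η * ((N : ℝ) / Q)

/-- POS (about 100 lines).
Proof. Let `φ : ℂ → ℂ`, `φ w = max (re w) 0`; it is `1`-Lipschitz and `φ 0 = 0`, so
`Φ f = LipschitzWith.compLp` is a `1`-Lipschitz (continuous) map of `Lp ℂ 2 μ` with
`(Φ f) x = φ (f x)` almost everywhere, and `koop μ T n (Φ f) = Φ (koop μ T n f)` (`koop_coe`).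
So `Φ` maps vectors with `Per1` to such vectors. These form a subspace (see `S_NPQ`), so `Φ` maps
`ZZ` to itself by continuity. Let `g = iv μ A` and `f = PZ g`. Then `Φ g = g`, so
`‖g - Φ f‖ = ‖Φ g - Φ f‖ ≤ ‖g - f‖`, and `Φ f ∈ ZZ`; the point of `ZZ` nearest to `g` is unique,
hence `Φ f = f`. -/
def S_POS : Prop := ∀ (X : Type u) [MeasurableSpace X] [StandardBorelSpace X] (μ : Measure X)
  [IsProbabilityMeasure μ] (r : ℕ) (c : ℕ → Fin r) (T : ℕ → X → X), Sys c μ T →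
  ∀ A : Set X, MeasurableSet A →
    ∀ᵐ x ∂μ, 0 ≤ ((PZ (koop μ T) (iv μ A) : Lp ℂ 2 μ) x).re ∧
      ((PZ (koop μ T) (iv μ A) : Lp ℂ 2 μ) x).im = 0

/-- DEN (about 100 lines).
Proof. The density exists by `lab_dens`. As `Q^k` is its own special part (`sp c Q (Q^k) = Q^k`:
`sp` is multiplicative and `sp c Q Q = Q` since all prime factors of `Q` are special) and
`gam c Q (Q^k) = 0` (`gam_sp`), `lab c Q N (Q^k) 0` is `Q^k` times `lab c Q (N / Q^k) 1 0`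
(`lab_sum`); so it suffices that the density of `lab c Q N 1 0` is positive. Suppose that it is
zero. If `lab c Q M 1 g` is not empty, it contains some `n₀`, and `t = n₀^(φ(Q) - 1)` has
`sp c Q t = 1`, `gam c Q t = -g` (`GG_kill`); so `n ↦ n t` maps `lab c Q N 1 g` into
`lab c Q (N t) 1 0`, and the density of `lab c Q N 1 g` is zero. There are finitely many `g`, so the
set `sp c Q n = 1` has density zero; then so has `sp c Q n = s₀` for every `s₀ > 0` (it is `s₀`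
times the former, or empty; compare `labu_sum`). By `good (spa_Sp c Q hQ) (1/2)` and `sp_eq_prt` the
`n ≤ N` with `sp c Q n ∣ M` are at least `N / 2` many, a contradiction. -/
def S_DEN : Prop := ∀ (r : ℕ) (c : ℕ → Fin r) (Q : ℕ), 0 < Q → ∀ k : ℕ,
  ∃ d : ℝ, 0 < d ∧ Tendsto (fun N : ℕ => ((lab c Q N (Q ^ k) 0).card : ℝ) / N) atTop (𝓝 d)

open scoped Classical in
/-- COV (about 40 lines).
Proof. `good (spa_Sp c Q hQ) δ` gives `M` such that `sp c Q n ∣ M` (`sp_eq_prt`) for all `n ≤ N` but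
`δ N` many. Let `𝓛` be the set of all `(s₀, g)` with `s₀ ∣ M`, `g` arbitrary (finite group) and
`s₀ * g.1 = 1` in `ZMod Q`. If `n ∈ cls Q N` and `sp c Q n ∣ M` then `(sp c Q n, gam c Q n) ∈ 𝓛` by
`res_eq`. -/
def S_COV : Prop := ∀ (r : ℕ) (c : ℕ → Fin r) (Q : ℕ), 0 < Q → ∀ δ : ℝ, 0 < δ →
  ∃ 𝓛 : Finset (ℕ × GG r Q),
    (∀ x ∈ 𝓛, (x.1 : ZMod Q) * ((Additive.toMul x.2.1 : (ZMod Q)ˣ) : ZMod Q) = 1) ∧
    ∀ N : ℕ, ((((cls Q N).filter (fun n => (sp c Q n, gam c Q n) ∉ 𝓛)).card : ℕ) : ℝ) ≤ δ * N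

/-- TK (about 120 lines), hypothesis `S_APE`.
Proof. Apply `tk_main` (`MA.TK3`) as in `SN_orth` (`MA.Main`), with `v k = koop μ T k F`
(`hv` is `S_APE`), with the refined colouring `c' p = (c p, p mod Q) ∈ Fin (r * Q)`
(`finProdFinEquiv`), a colour `i` with `Big c' i` (`exists_big`), and with `W m n` equal to
`mulB μ (ww T F1 F2 F4 m n)` if `m ∈ lab c Q m (Q^k) 0`, that is `sp c Q m = Q^k ∧ gam c Q m = 0`,
and `n % Q = 1 % Q`, and `0` otherwise. One has to see that `W (p m) n = W (q m) n` for primes `p`,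
`q` of the colour `i`: as in `SN_orth` the two operators `mulB ..` agree (`c p = c q`); the
condition on `m` agrees because `sp` and `gam` are multiplicative and `sp c Q p = sp c Q q`,
`gam c Q p = gam c Q q`: the colour `c p` is large (it contains the large colour `i`), so `p` is
special iff `p ∣ Q`; `p ≡ q (mod Q)`, so `p ∣ Q` iff `q ∣ Q`, and then `p = q` (both are prime and
`p ∣ q`); otherwise `un c Q p` is the class of `p` (`un_prime`, `Om_prime`). -/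
def S_TK : Prop := ∀ (X : Type u) [MeasurableSpace X] [StandardBorelSpace X] (μ : Measure X)
  [IsProbabilityMeasure μ] (r : ℕ) (c : ℕ → Fin r) (T : ℕ → X → X), Sys c μ T →
  ∀ Q : ℕ, 0 < Q → ∀ k : ℕ, ∀ F1 F2 F4 : X → ℂ, BM F1 → BM F2 → BM F4 → ∀ F : Lp ℂ 2 μ,
  (∀ y, Per1 (koop μ T) y → ⟪y, F⟫_ℂ = 0) →
  Tendsto (fun N : ℕ => ((N : ℂ)⁻¹ * (N : ℂ)⁻¹) • ∑ m ∈ lab c Q N (Q ^ k) 0, ∑ n ∈ cls Q N,
    mulB μ (ww T F1 F2 F4 m n) (koop μ T (m + n) F)) atTop (𝓝 0)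

/-- CUBE (about 150 lines), hypothesis `S_DEN`.
Proof. Let `L N = lab c Q N s₀ g` (we may assume that it is not always empty and has positive density
`d`; if the density is `0`, both terms tend to zero by trivial bounds), `L' N = lab c Q N (Q^k) 0`,
`q = qq c Q π`, `ρ = rr c Q π`, `t = s₀ * tt Q π g`. By `u_lab` (and `ae_of_u` in `MA.Asm`, see the
proof of `OP_lab`) `T n x = T t (T (ρ n) x)` a.e. for `n ∈ L N` and
`T m x = T (Q^k) (T (ρ m) x)` a.e. for `m ∈ L' N` (`tt Q π 0 = 1`). Put `F1 x = iF A (T t x)`,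
`F2 x = iF A (T (Q^k) x)`, `F4 x = iF A (T t (T (Q^k) x))`. Then
`koop m (Bn n) = koop (ρ m) (gv μ T (ρ n) F2 F4)`, so the first double sum is
`⟪iv μ A, CN μ T L ρ L' ρ F1 F2 F4 N⟫` and the second term is
`(#L' N / N) ⟪iv μ A, VN μ T q L ρ F1 F2 F4 N⟫`, because
`koop (Q^k) (Bn n) = gv μ T (ρ n) F2 F4`. Now use `CN_VN` (`MA.Cube3`) with `seq_lab`, `inv_lab`
(`MA.Asm`; for the relative product system use `h.prod`), positivity of the density of `L'` by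
`S_DEN`. -/
def S_CUBE : Prop := ∀ (X : Type u) [MeasurableSpace X] [StandardBorelSpace X] (μ : Measure X)
  [IsProbabilityMeasure μ] (r : ℕ) (c : ℕ → Fin r) (T : ℕ → X → X), Sys c μ T →
  ∀ Q : ℕ, 0 < Q → ∀ π : Fin r → ℕ, Rep c π → ∀ A : Set X, MeasurableSet A →
  ∀ (k s₀ : ℕ) (g : GG r Q),
  Tendsto (fun N : ℕ =>
    ((N : ℂ)⁻¹ * (N : ℂ)⁻¹) * ∑ n ∈ lab c Q N s₀ g, ∑ m ∈ lab c Q N (Q ^ k) 0,
      ⟪Bn μ T A n, koop μ T m (Bn μ T A n)⟫_ℂ -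
    ((((lab c Q N (Q ^ k) 0).card : ℝ) / N : ℝ) : ℂ) * ((N : ℂ)⁻¹ * ∑ n ∈ lab c Q N s₀ g,
      ⟪Bn μ T A n, PI (koop μ T) (qq c Q π) (koop μ T (Q ^ k) (Bn μ T A n))⟫_ℂ)) atTop (𝓝 0)

/-- VDC (about 80 lines).
Proof. Let `b = PI v q B` and `S = v Q`, an isometry commuting with the projection `PI v q`
(`PI_comm`), `v (Q^k) = S^k` (`FG.pow`). Then `⟪B, PI (S^k B)⟫ = ⟪b, S^k b⟫` and `⟪e, b⟫ = ⟪e, B⟫`
(`e` is in the range of the projection). Now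
`K² |⟪e, b⟫|² = |⟪e, ∑_{j < K} S^j b⟫|² ≤ ‖∑_{j < K} S^j b‖² =
K ‖b‖² + 2 ∑_{k=1}^{K-1} (K - k) re ⟪b, S^k b⟫`, and `‖b‖ ≤ ‖B‖`. -/
def S_VDC : Prop := ∀ (H : Type u) [NormedAddCommGroup H] [InnerProductSpace ℂ H] [CompleteSpace H]
  (r : ℕ) (c : ℕ → Fin r) (v : ℕ → H →L[ℂ] H), FG c v → ∀ q : Fin r → ℕ, (∀ i, 0 < q i) →
  ∀ Q : ℕ, 0 < Q → ∀ e : H, ‖e‖ = 1 → (∀ n : ℕ, 0 < n → v n e = e) → ∀ B : H, ∀ K : ℕ, 0 < K →
  ((K : ℝ) ^ 2 * ‖⟪e, B⟫_ℂ‖ ^ 2 - K * ‖B‖ ^ 2) / 2 ≤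
    ∑ k ∈ Ico 1 K, ((K : ℝ) - k) * (⟪B, PI v q (v (Q ^ k) B)⟫_ℂ).re

/-- REC (about 80 lines), hypotheses `S_NPQ` and `S_APE`.
Proof. Let `a = iv μ A`, `h = PZ a ∈ ZZ`, `a - h` is orthogonal to all vectors with `Per1`. By
`S_APE`, `N⁻¹ ∑_{n ∈ cls Q N} u_n (a - h) → 0` (the progression `1` modulo `Q`). Further
`re ⟪a, u_n h⟫ = re ⟪a, h⟫ + re ⟪a, u_n h - h⟫ ≥ ‖h‖² - ‖u_n h - h‖`, and
`‖h‖ ≥ |⟪1, h⟫| = |⟪1, a⟫| = μ(A)` because the constant function `1` has `Per1`. Sum over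
`n ∈ cls Q N`, use `S_NPQ` with `η / 4` and `#(cls Q N) ≥ N / Q - 1`. -/
def S_REC : Prop := ∀ (X : Type u) [MeasurableSpace X] [StandardBorelSpace X] (μ : Measure X)
  [IsProbabilityMeasure μ] (r : ℕ) (c : ℕ → Fin r) (T : ℕ → X → X), Sys c μ T →
  ∀ A : Set X, MeasurableSet A → ∀ η : ℝ, 0 < η →
  ∃ Q₀ : ℕ, 0 < Q₀ ∧ ∀ Q : ℕ, 0 < Q → Q₀ ∣ Q → ∃ N₀ : ℕ, ∀ N : ℕ, N₀ ≤ N →
    ((μ.real A) ^ 2 - η) * ((N : ℝ) / Q) ≤ ∑ n ∈ cls Q N, (⟪iv μ A, koop μ T n (iv μ A)⟫_ℂ).re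

/-- STEP1 (about 150 lines), hypotheses `S_TK`, `S_POS`.
Proof. Let `f = PZ (iv μ A)`, `g = iv μ A - f` and `w = ww T 1_A 1_A 1_A m n`. By `S_TK`,
`N⁻² ∑ ∑ ⟪iv μ A, w · u_{m+n} g⟫ → 0`. Further `|⟪iv μ A, w · (u_{m+n} f - f)⟫| ≤ ‖u_{m+n} f - f‖`,
and since `m ≡ 0`, `n ≡ 1 (mod Q)` (`k ≥ 1`, so `Q ∣ Q^k ∣ m`), for fixed `m` the numbers
`m + n ≤ 2 N` are distinct elements of `cls Q (2 N)`. Finally
`re ⟪iv μ A, w · f⟫ = ∫ 1_A(x) 1_A(T_m x) 1_A(T_n x) 1_A(T_{mn} x) f(x) dμ(x)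
≥ ε ∫ 1_{A'}(x) 1_{A'}(T_m x) 1_{A'}(T_n x) 1_{A'}(T_{mn} x) dμ(x) = ε re ⟪Bn n, u_m (Bn n)⟫`,
because `f ≥ 0` and `f ≥ ε` on `A' ⊆ A`. -/
def S_STEP1 : Prop := ∀ (X : Type u) [MeasurableSpace X] [StandardBorelSpace X] (μ : Measure X)
  [IsProbabilityMeasure μ] (r : ℕ) (c : ℕ → Fin r) (T : ℕ → X → X), Sys c μ T →
  ∀ A A' : Set X, MeasurableSet A → MeasurableSet A' → A' ⊆ A → ∀ ε : ℝ, 0 < ε →
  (∀ᵐ x ∂μ, x ∈ A' → ε ≤ ((PZ (koop μ T) (iv μ A) : Lp ℂ 2 μ) x).re) →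
  ∀ Q : ℕ, 0 < Q → ∀ k : ℕ, 0 < k → ∀ δ : ℝ, 0 < δ → ∃ N₀ : ℕ, ∀ N : ℕ, N₀ ≤ N →
    ε * ((N : ℝ)⁻¹ * (N : ℝ)⁻¹ * ∑ m ∈ lab c Q N (Q ^ k) 0, ∑ n ∈ cls Q N,
      (⟪Bn μ T A' n, koop μ T m (Bn μ T A' n)⟫_ℂ).re) -
    ((lab c Q N (Q ^ k) 0).card : ℝ) / N * ((N : ℝ)⁻¹ * ∑ t ∈ cls Q (2 * N),
      ‖koop μ T t (PZ (koop μ T) (iv μ A)) - PZ (koop μ T) (iv μ A)‖) - δ ≤
    (N : ℝ)⁻¹ * (N : ℝ)⁻¹ * ∑ m ∈ lab c Q N (Q ^ k) 0, ∑ n ∈ cls Q N,
      (⟪iv μ A, mulB μ (ww T (iF A) (iF A) (iF A) m n) (koop μ T (m + n) (iv μ A))⟫_ℂ).re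

/-- MAIN (leader). -/
def S_MAIN : Prop := ∀ (X : Type u) [MeasurableSpace X] [StandardBorelSpace X] (μ : Measure X)
  [IsProbabilityMeasure μ] (r : ℕ) (c : ℕ → Fin r) (T : ℕ → X → X), Sys c μ T →
  ∀ A : Set X, MeasurableSet A → 0 < μ.real A → ∃ δ : ℝ, 0 < δ ∧ ∃ N₀ : ℕ, ∀ N : ℕ, N₀ ≤ N →
    δ ≤ (N : ℝ)⁻¹ * (N : ℝ)⁻¹ * ∑ m ∈ Ioc 0 N, ∑ n ∈ Ioc 0 N,
      (⟪iv μ A, mulB μ (ww T (iF A) (iF A) (iF A) m n) (koop μ T (m + n) (iv μ A))⟫_ℂ).re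

end Pool.Agent.Run7.h982.QP
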