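import Pool.Agent.Run7.h982.QP.Iface

set_option autoImplicit false
set_option linter.unusedSectionVars false

namespace Pool.Agent.Run7.h982.QP

open Finset Filter Topology MeasureTheory ProbabilityTheory
open scoped InnerProductSpace ENNReal
open Pool.Agent.K7.H83.MA

universe u

section basic

variable {X : Type u} [MeasurableSpace X] [StandardBorelSpace X] {μ : Measure X}
  [IsProbabilityMeasure μ] {r : ℕ} {c : ℕ → Fin r} {T : ℕ → X → X}

theorem iF_BM {A : Set X} (hA : MeasurableSet A) : BM (iF A) := ind_BM hA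

theorem iF_norm (A : Set X) (x : X) : ‖iF A x‖ ≤ 1 := by
  unfold iF
  by_cases hx : x ∈ A <;> simp [hx]

theorem iF_real (A : Set X) (x : X) : ∃ a : ℝ, 0 ≤ a ∧ iF A x = a := by
  unfold iF
  by_cases hx : x ∈ A
  · exact ⟨1, zero_le_one, by simp [hx]⟩
  · exact ⟨0, le_rfl, by simp [hx]⟩

theorem iF_conj (A : Set X) (x : X) : (starRingEnd ℂ) (iF A x) = iF A x := by
  obtain ⟨a, _, h⟩ := iF_real A x
  rw [h, Complex.conj_ofReal]

theorem re_inner_nonneg {F G : X → ℂ} (hF : BM F) (hG : BM G)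
    (hF0 : ∀ x, ∃ a : ℝ, 0 ≤ a ∧ F x = a) (hG0 : ∀ x, ∃ a : ℝ, 0 ≤ a ∧ G x = a) :
    0 ≤ (⟪bl μ F, bl μ G⟫_ℂ).re := by
  rw [inner_bl hF hG]
  have hint : Integrable (fun x => (starRingEnd ℂ) (F x) * G x) μ := (hF.conj.mul hG).integrable μ
  have h1 := integral_re (𝕜 := ℂ) hint
  have h2 : 0 ≤ ∫ x, RCLike.re ((starRingEnd ℂ) (F x) * G x) ∂μ := by
    refine integral_nonneg fun x => ?_
    obtain ⟨a, ha, h3⟩ := hF0 x
    obtain ⟨b, hb, h4⟩ := hG0 x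
    change 0 ≤ ((starRingEnd ℂ) (F x) * G x).re
    rw [h3, h4, Complex.conj_ofReal, ← Complex.ofReal_mul, Complex.ofReal_re]
    positivity
  rw [h1] at h2
  exact h2

theorem Bn_BM (h : Sys c μ T) {A : Set X} (hA : MeasurableSet A) {n : ℕ} (hn : 0 < n) :
    BM (fun x => iF A x * iF A (T n x)) :=
  (iF_BM hA).mul ((iF_BM hA).comp (h.mp n hn).measurable)

theorem Bn_norm (h : Sys c μ T) {A : Set X} (hA : MeasurableSet A) {n : ℕ} (hn : 0 < n) :
    ‖Bn μ T A n‖ ≤ 1 := by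
  unfold Bn
  refine bl_norm_le (Bn_BM h hA hn) zero_le_one fun x => ?_
  rw [norm_mul]
  calc _ ≤ (1 : ℝ) * 1 := mul_le_mul (iF_norm A x) (iF_norm A _) (norm_nonneg _) zero_le_one
    _ = 1 := one_mul 1

theorem mul_real {F G : X → ℂ} (hF0 : ∀ x, ∃ a : ℝ, 0 ≤ a ∧ F x = a)
    (hG0 : ∀ x, ∃ a : ℝ, 0 ≤ a ∧ G x = a) : ∀ x, ∃ a : ℝ, 0 ≤ a ∧ F x * G x = a := by
  intro x
  obtain ⟨a, ha, h3⟩ := hF0 x
  obtain ⟨b, hb, h4⟩ := hG0 x
  exact ⟨a * b, mul_nonneg ha hb, by rw [h3, h4, Complex.ofReal_mul]⟩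

theorem Bn_pair_nonneg (h : Sys c μ T) {A : Set X} (hA : MeasurableSet A) {m n : ℕ} (hm : 0 < m)
    (hn : 0 < n) : 0 ≤ (⟪Bn μ T A n, koop μ T m (Bn μ T A n)⟫_ℂ).re := by
  unfold Bn
  rw [koop_bl (h.mp m hm) (Bn_BM h hA hn)]
  refine re_inner_nonneg (Bn_BM h hA hn) ((Bn_BM h hA hn).comp (h.mp m hm).measurable)
    (mul_real (iF_real A) fun x => iF_real A _) (fun x => mul_real (iF_real A)
      (fun x => iF_real A _) (T m x))

theorem ww_real {A : Set X} (m n : ℕ) (x : X) :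
    ∃ a : ℝ, 0 ≤ a ∧ ww T (iF A) (iF A) (iF A) m n x = a := by
  unfold ww
  exact mul_real (F := fun x => iF A (T m x)) (G := fun x => iF A (T n x) * iF A (T (m * n) x))
    (fun x => iF_real A _) (mul_real (F := fun x => iF A (T n x))
      (G := fun x => iF A (T (m * n) x)) (fun x => iF_real A _) (fun x => iF_real A _)) x

theorem R_nonneg (h : Sys c μ T) {A : Set X} (hA : MeasurableSet A) {m n : ℕ} (hm : 0 < m)
    (hn : 0 < n) : 0 ≤ (⟪iv μ A, mulB μ (ww T (iF A) (iF A) (iF A) m n)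
      (koop μ T (m + n) (iv μ A))⟫_ℂ).re := by
  have hA' := iF_BM (X := X) hA
  have h1 := hA'.comp (h.mp (m + n) (by omega)).measurable
  have h2 := ww_BM h hA' hA' hA' hm hn
  unfold iv
  rw [koop_bl (h.mp (m + n) (by omega)) hA', mulB_bl h2 h1]
  exact re_inner_nonneg hA' (h2.mul h1) (iF_real A) (mul_real (ww_real m n) fun x => iF_real A _)

/-- the constant function one -/
noncomputable def e1 (μ : Measure X) : Lp ℂ 2 μ := bl μ (fun _ => (1 : ℂ))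

theorem e1_norm : ‖e1 μ‖ = 1 := by
  have h1 : ⟪e1 μ, e1 μ⟫_ℂ = 1 := by
    unfold e1
    rw [inner_bl (BM.const 1) (BM.const 1)]
    simp
  have h2 := inner_self_eq_norm_sq_to_K (𝕜 := ℂ) (e1 μ)
  rw [h1] at h2
  have h3 : (‖e1 μ‖ ^ 2 : ℝ) = 1 := by
    have h4 : (((‖e1 μ‖ ^ 2 : ℝ)) : ℂ) = ((1 : ℝ) : ℂ) := by
      push_cast
      exact h2.symm
    exact_mod_cast h4
  have h5 := norm_nonneg (e1 μ)
  nlinarith

theorem e1_fix (h : Sys c μ T) {n : ℕ} (hn : 0 < n) : koop μ T n (e1 μ) = e1 μ := by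
  unfold e1
  rw [koop_bl (h.mp n hn) (BM.const 1)]

theorem e1_Per1 (h : Sys c μ T) : Per1 (koop μ T) (e1 μ) := by
  classical
  refine ⟨1, one_pos, fun _ => False, ?_, fun n hn _ _ => e1_fix h hn⟩
  unfold Spa
  refine summable_zero.congr fun p => ?_
  rw [if_neg (by simp)]

theorem inner_e1_Bn (h : Sys c μ T) {A : Set X} (hA : MeasurableSet A) {n : ℕ} (hn : 0 < n) :
    ⟪e1 μ, Bn μ T A n⟫_ℂ = ⟪iv μ A, koop μ T n (iv μ A)⟫_ℂ := by
  unfold e1 Bn iv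
  rw [koop_bl (h.mp n hn) (iF_BM hA), inner_bl (BM.const 1) (Bn_BM h hA hn),
    inner_bl (iF_BM hA) ((iF_BM hA).comp (h.mp n hn).measurable)]
  refine integral_congr_ae (Eventually.of_forall fun x => ?_)
  beta_reduce
  rw [iF_conj, map_one, one_mul]

theorem inner_e1_iv {A : Set X} (hA : MeasurableSet A) : ⟪e1 μ, iv μ A⟫_ℂ = (μ.real A : ℂ) := by
  unfold e1 iv
  rw [inner_bl (BM.const 1) (iF_BM hA)]
  simp only [map_one, one_mul]
  unfold iF
  rw [integral_indicator hA]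
  simp

/-- projection facts -/
theorem PZ_inner (a : Lp ℂ 2 μ) : (⟪a, PZ (koop μ T) a⟫_ℂ).re = ‖PZ (koop μ T) a‖ ^ 2 := by
  have h1 : ⟪a - PZ (koop μ T) a, PZ (koop μ T) a⟫_ℂ = 0 := by
    unfold PZ
    have := (ZZ (koop μ T)).starProjection_inner_eq_zero a
      ((ZZ (koop μ T)).starProjection a) ((ZZ (koop μ T)).starProjection_apply_mem a)
    exact this
  have h2 : ⟪a, PZ (koop μ T) a⟫_ℂ = ⟪PZ (koop μ T) a, PZ (koop μ T) a⟫_ℂ := by
    rw [inner_sub_left, sub_eq_zero] at h1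
    exact h1
  rw [h2, inner_self_eq_norm_sq_to_K]
  norm_cast

theorem PZ_orth (a y : Lp ℂ 2 μ) (hy : y ∈ ZZ (koop μ T)) :
    ⟪y, a - PZ (koop μ T) a⟫_ℂ = 0 := by
  have h1 := (ZZ (koop μ T)).starProjection_inner_eq_zero a y hy
  rw [← inner_conj_symm]
  unfold PZ
  rw [h1, map_zero]

theorem mem_ZZ {y : Lp ℂ 2 μ} (hy : Per1 (koop μ T) y) : y ∈ ZZ (koop μ T) :=
  Submodule.le_topologicalClosure _ (Submodule.subset_span hy)

theorem PZ_mem (a : Lp ℂ 2 μ) : PZ (koop μ T) a ∈ ZZ (koop μ T) :=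
  (ZZ (koop μ T)).starProjection_apply_mem a

theorem PZ_ge (h : Sys c μ T) {A : Set X} (hA : MeasurableSet A) :
    (μ.real A) ^ 2 ≤ (⟪iv μ A, PZ (koop μ T) (iv μ A)⟫_ℂ).re := by
  rw [PZ_inner]
  have h1 := PZ_orth (T := T) (iv μ A) (e1 μ) (mem_ZZ (e1_Per1 h))
  rw [inner_sub_right, sub_eq_zero, inner_e1_iv hA] at h1
  have h2 := norm_inner_le_norm (𝕜 := ℂ) (e1 μ) (PZ (koop μ T) (iv μ A))
  rw [← h1, e1_norm, one_mul, Complex.norm_real, Real.norm_eq_abs, abs_of_nonneg measureReal_nonneg] at h2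
  exact pow_le_pow_left₀ measureReal_nonneg h2 2

/-- the level -/
theorem exists_level (h : Sys c μ T) {A : Set X} (hA : MeasurableSet A) (hpos : 0 < μ.real A) :
    ∃ ε : ℝ, 0 < ε ∧ ∃ A' : Set X, MeasurableSet A' ∧ A' ⊆ A ∧ 0 < μ.real A' ∧
      ∀ᵐ x ∂μ, x ∈ A' → ε ≤ ((PZ (koop μ T) (iv μ A) : Lp ℂ 2 μ) x).re := by
  set f : Lp ℂ 2 μ := PZ (koop μ T) (iv μ A) with hf
  have hfm : Measurable (fun x => (f x).re) :=
    Complex.measurable_re.comp (Lp.stronglyMeasurable f).measurable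
  by_contra hcon
  push Not at hcon
  have h1 : ∀ j : ℕ, μ (A ∩ {x | 1 / ((j : ℝ) + 1) ≤ (f x).re}) = 0 := by
    intro j
    have hm : MeasurableSet (A ∩ {x | 1 / ((j : ℝ) + 1) ≤ (f x).re}) :=
      hA.inter (measurableSet_le measurable_const hfm)
    by_contra hne
    have h2 : 0 < μ.real (A ∩ {x | 1 / ((j : ℝ) + 1) ≤ (f x).re}) := by
      rw [measureReal_def]
      exact ENNReal.toReal_pos hne (measure_ne_top μ _)
    exact hcon (1 / ((j : ℝ) + 1)) (by positivity) _ hm Set.inter_subset_left h2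
      (Eventually.of_forall fun x hx => absurd hx.1.2 (not_le.2 hx.2))
  have h2 : ∀ᵐ x ∂μ, x ∈ A → (f x).re ≤ 0 := by
    have h3 : ∀ᵐ x ∂μ, ∀ j : ℕ, x ∉ A ∩ {x | 1 / ((j : ℝ) + 1) ≤ (f x).re} := by
      rw [ae_all_iff]
      intro j
      exact measure_eq_zero_iff_ae_notMem.1 (h1 j)
    filter_upwards [h3] with x hx hxA
    by_contra hlt
    push Not at hlt
    obtain ⟨j, hj⟩ := exists_nat_one_div_lt hlt
    exact hx j ⟨hxA, hj.le⟩
  have h3 := PZ_ge h hA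
  rw [← hf] at h3
  have h4 : (⟪iv μ A, f⟫_ℂ).re ≤ 0 := by
    rw [L2.inner_def]
    have hint : Integrable (fun x => ⟪(iv μ A : Lp ℂ 2 μ) x, f x⟫_ℂ) μ :=
      L2.integrable_inner (𝕜 := ℂ) (iv μ A) f
    have h5 := integral_re (𝕜 := ℂ) hint
    change RCLike.re (∫ x, ⟪(iv μ A : Lp ℂ 2 μ) x, f x⟫_ℂ ∂μ) ≤ 0
    rw [← h5]
    refine integral_nonpos_of_ae ?_
    filter_upwards [h2, bl_coe (μ := μ) (iF_BM hA)] with x h6 h7
    change RCLike.re ⟪(bl μ (iF A) : Lp ℂ 2 μ) x, f x⟫_ℂ ≤ 0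
    rw [h7, RCLike.inner_apply, iF_conj]
    unfold iF
    by_cases hx : x ∈ A
    · rw [Set.indicator_of_mem hx, mul_one]
      exact h6 hx
    · rw [Set.indicator_of_notMem hx, mul_zero]
      simp
  nlinarith [pow_pos hpos 2]

end basic

end Pool.Agent.Run7.h982.QP
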