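import Pool.Agent.Run7.h982.QP.M1

set_option autoImplicit false
set_option linter.unusedSectionVars false

namespace Pool.Agent.Run7.h982.QP

open Finset Filter Topology MeasureTheory ProbabilityTheory
open scoped InnerProductSpace ENNReal
open Pool.Agent.K7.H83.MA

universe u

theorem cls_sub (Q N : ℕ) : cls Q N ⊆ Ioc 0 N := Finset.filter_subset _ _

theorem cls_card {Q : ℕ} (hQ : 0 < Q) (N : ℕ) : ((cls Q N).card : ℝ) ≤ (N : ℝ) / Q + 1 := by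
  have h1 : (cls Q N).card ≤ (Finset.range (N / Q + 1)).card := by
    refine Finset.card_le_card_of_injOn (fun n => (n - 1) / Q) ?_ ?_
    · intro n hn
      have hn' := Finset.mem_coe.1 hn
      unfold cls at hn'
      rw [mem_filter, mem_Ioc] at hn'
      have : (n - 1) / Q ≤ N / Q := Nat.div_le_div_right (by omega)
      simp only [Finset.coe_range, Set.mem_Iio]
      omega
    · intro n hn m hm hnm
      have hn' := Finset.mem_coe.1 hn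
      have hm' := Finset.mem_coe.1 hm
      unfold cls at hn' hm'
      rw [mem_filter, mem_Ioc] at hn' hm'
      beta_reduce at hnm
      have key : ∀ n : ℕ, 0 < n → n % Q = 1 % Q → n = 1 + Q * ((n - 1) / Q) := by
        intro n hn h
        have h2 : Q ∣ n - 1 := (Nat.modEq_iff_dvd' (by omega : 1 ≤ n)).1 h.symm
        rw [Nat.mul_div_cancel' h2]
        omega
      rw [key n hn'.1.1 hn'.2, key m hm'.1.1 hm'.2, hnm]
  rw [Finset.card_range] at h1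
  have h2 : ((N / Q : ℕ) : ℝ) ≤ (N : ℝ) / Q := Nat.cast_div_le
  have h3 : ((cls Q N).card : ℝ) ≤ ((N / Q + 1 : ℕ) : ℝ) := by exact_mod_cast h1
  push_cast at h3
  linarith

section

variable {r : ℕ} (c : ℕ → Fin r) (Q : ℕ)

open scoped Classical in
/-- the part of `cls Q N` covered by the labels in `𝓛` -/
noncomputable def UU (𝓛 : Finset (ℕ × GG r Q)) (N : ℕ) : Finset ℕ :=
  (cls Q N).filter (fun n => (sp c Q n, gam c Q n) ∈ 𝓛)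

theorem UU_sub (𝓛 : Finset (ℕ × GG r Q)) (N : ℕ) : UU c Q 𝓛 N ⊆ cls Q N :=
  Finset.filter_subset _ _

theorem UU_sum {M : Type*} [AddCommMonoid M] (𝓛 : Finset (ℕ × GG r Q))
    (hL : ∀ x ∈ 𝓛, (x.1 : ZMod Q) * ((Additive.toMul x.2.1 : (ZMod Q)ˣ) : ZMod Q) = 1) (N : ℕ)
    (F : ℕ → M) : ∑ n ∈ UU c Q 𝓛 N, F n = ∑ x ∈ 𝓛, ∑ n ∈ lab c Q N x.1 x.2, F n := by
  classical
  have hmap : ∀ n ∈ UU c Q 𝓛 N, (sp c Q n, gam c Q n) ∈ 𝓛 := by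
    intro n hn
    unfold UU at hn
    exact (mem_filter.1 hn).2
  rw [← Finset.sum_fiberwise_of_maps_to hmap]
  refine Finset.sum_congr rfl fun x hx => Finset.sum_congr ?_ fun _ _ => rfl
  ext n
  unfold UU cls
  rw [mem_filter, mem_filter, mem_filter, mem_lab, mem_Ioc]
  constructor
  · rintro ⟨⟨⟨h1, _⟩, _⟩, h4⟩
    exact ⟨h1, congrArg Prod.fst h4, congrArg Prod.snd h4⟩
  · rintro ⟨h1, h2, h3⟩
    have h4 : (sp c Q n, gam c Q n) = x := Prod.ext h2 h3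
    refine ⟨⟨⟨h1, ?_⟩, by rw [h4]; exact hx⟩, h4⟩
    have h5 := res_eq c Q h1.1
    have h6 := hL x hx
    rw [← h4] at h6
    have h7 : ((n : ℕ) : ZMod Q) = ((1 : ℕ) : ZMod Q) := by
      rw [h5, Nat.cast_one]
      exact h6
    exact (ZMod.natCast_eq_natCast_iff n 1 Q).1 h7

end

section basic

variable {X : Type u} [MeasurableSpace X] [StandardBorelSpace X] {μ : Measure X}
  [IsProbabilityMeasure μ] {r : ℕ} {c : ℕ → Fin r} {T : ℕ → X → X}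

/-- the averages `R_N` -/
noncomputable def RN (μ : Measure X) [IsProbabilityMeasure μ] (T : ℕ → X → X) (A : Set X)
    (N : ℕ) : ℝ := (N : ℝ)⁻¹ * (N : ℝ)⁻¹ * ∑ m ∈ Ioc 0 N, ∑ n ∈ Ioc 0 N,
      (⟪iv μ A, mulB μ (ww T (iF A) (iF A) (iF A) m n) (koop μ T (m + n) (iv μ A))⟫_ℂ).re

theorem RN_nonneg (h : Sys c μ T) {A : Set X} (hA : MeasurableSet A) (N : ℕ) :
    0 ≤ RN μ T A N := by
  unfold RN
  refine mul_nonneg (by positivity) (Finset.sum_nonneg fun m hm => Finset.sum_nonneg fun n hn => ?_)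
  exact R_nonneg h hA (mem_Ioc.1 hm).1 (mem_Ioc.1 hn).1

theorem lab_sub (Q N s₀ : ℕ) (g : GG r Q) : lab c Q N s₀ g ⊆ Ioc 0 N := fun n hn =>
  mem_Ioc.2 ((mem_lab c Q).1 hn).1

theorem sub_le_RN (h : Sys c μ T) {A : Set X} (hA : MeasurableSet A) (Q k N : ℕ) :
    (N : ℝ)⁻¹ * (N : ℝ)⁻¹ * ∑ m ∈ lab c Q N (Q ^ k) 0, ∑ n ∈ cls Q N,
      (⟪iv μ A, mulB μ (ww T (iF A) (iF A) (iF A) m n) (koop μ T (m + n) (iv μ A))⟫_ℂ).re ≤
    RN μ T A N := by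
  unfold RN
  refine mul_le_mul_of_nonneg_left ?_ (by positivity)
  refine (Finset.sum_le_sum fun m hm => ?_).trans
    (Finset.sum_le_sum_of_subset_of_nonneg (lab_sub Q N (Q ^ k) 0) fun m hm _ => ?_)
  · have hm' := mem_Ioc.1 (lab_sub (c := c) Q N (Q ^ k) 0 hm)
    exact Finset.sum_le_sum_of_subset_of_nonneg (cls_sub Q N) fun n hn _ =>
      R_nonneg h hA hm'.1 (mem_Ioc.1 hn).1
  · exact Finset.sum_nonneg fun n hn => R_nonneg h hA (mem_Ioc.1 hm).1 (mem_Ioc.1 hn).1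

/-- the values -/
noncomputable def Vk (μ : Measure X) [IsProbabilityMeasure μ] (T : ℕ → X → X) {r : ℕ}
    (q : Fin r → ℕ) (A : Set X) (Q k n : ℕ) : ℝ :=
  (⟪Bn μ T A n, PI (koop μ T) q (koop μ T (Q ^ k) (Bn μ T A n))⟫_ℂ).re

/-- the terms of `S_CUBE` -/
noncomputable def CT (μ : Measure X) [IsProbabilityMeasure μ] (T : ℕ → X → X) {r : ℕ}
    (c : ℕ → Fin r) (Q : ℕ) (π : Fin r → ℕ) (A : Set X) (k : ℕ) (x : ℕ × GG r Q) (N : ℕ) : ℂ :=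
  ((N : ℂ)⁻¹ * (N : ℂ)⁻¹) * ∑ n ∈ lab c Q N x.1 x.2, ∑ m ∈ lab c Q N (Q ^ k) 0,
      ⟪Bn μ T A n, koop μ T m (Bn μ T A n)⟫_ℂ -
    ((((lab c Q N (Q ^ k) 0).card : ℝ) / N : ℝ) : ℂ) * ((N : ℂ)⁻¹ * ∑ n ∈ lab c Q N x.1 x.2,
      ⟪Bn μ T A n, PI (koop μ T) (qq c Q π) (koop μ T (Q ^ k) (Bn μ T A n))⟫_ℂ)

theorem stepk (hCUBE : S_CUBE.{u}) (hDEN : S_DEN) (hSTEP : S_STEP1.{u}) (h : Sys c μ T)
    {A A' : Set X} (hA : MeasurableSet A) (hA' : MeasurableSet A') (hAA : A' ⊆ A) {ε : ℝ}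
    (hε : 0 < ε)
    (hf : ∀ᵐ x ∂μ, x ∈ A' → ε ≤ ((PZ (koop μ T) (iv μ A) : Lp ℂ 2 μ) x).re) {Q : ℕ} (hQ : 0 < Q)
    {π : Fin r → ℕ} (hπ : Rep c π) (𝓛 : Finset (ℕ × GG r Q))
    (hL : ∀ x ∈ 𝓛, (x.1 : ZMod Q) * ((Additive.toMul x.2.1 : (ZMod Q)ˣ) : ZMod Q) = 1)
    {k : ℕ} (hk : 0 < k) : ∃ d : ℝ, 0 < d ∧ ∀ δ : ℝ, 0 < δ → ∃ N₀ : ℕ, ∀ N : ℕ, N₀ ≤ N →
      ε * ((N : ℝ)⁻¹ * ∑ n ∈ UU c Q 𝓛 N, Vk μ T (qq c Q π) A' Q k n) ≤
        (RN μ T A N + δ) * (2 / d) + (N : ℝ)⁻¹ * ∑ t ∈ cls Q (2 * N),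
          ‖koop μ T t (PZ (koop μ T) (iv μ A)) - PZ (koop μ T) (iv μ A)‖ := by
  classical
  obtain ⟨d, hd, hdens⟩ := hDEN r c Q hQ k
  refine ⟨d, hd, fun δ hδ => ?_⟩
  set δ1 : ℝ := δ / (ε + 1) with hδ1
  have hδ1p : 0 < δ1 := by positivity
  have hδ1e : ε * δ1 + δ1 = δ := by rw [hδ1]; field_simp
  obtain ⟨N₁, h1⟩ := hSTEP X μ r c T h A A' hA hA' hAA ε hε hf Q hQ k hk δ1 hδ1p
  have h2 : ∀ᶠ N : ℕ in atTop, d / 2 < ((lab c Q N (Q ^ k) 0).card : ℝ) / N :=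
    hdens.eventually (lt_mem_nhds (by linarith))
  have h3x : ∀ x : ℕ × GG r Q, Tendsto (CT μ T c Q π A' k x) atTop (𝓝 0) := fun x =>
    hCUBE X μ r c T h Q hQ π hπ A' hA' k x.1 x.2
  have h3 : Tendsto (fun N : ℕ => ∑ x ∈ 𝓛, CT μ T c Q π A' k x N) atTop
      (𝓝 (∑ x ∈ 𝓛, (0 : ℂ))) := tendsto_finsetSum _ fun x _ => h3x x
  rw [Finset.sum_const_zero] at h3
  obtain ⟨N₃, h3'⟩ := (Metric.tendsto_atTop.1 h3) δ1 hδ1p
  obtain ⟨N₂, h2'⟩ := eventually_atTop.1 h2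
  refine ⟨max (max N₁ N₂) (max N₃ 1), fun N hN => ?_⟩
  have hN1 : N₁ ≤ N := (le_max_left _ _).trans ((le_max_left _ _).trans hN)
  have hN2 : N₂ ≤ N := (le_max_right _ _).trans ((le_max_left _ _).trans hN)
  have hN3 : N₃ ≤ N := (le_max_left _ _).trans ((le_max_right _ _).trans hN)
  have hN4 : 1 ≤ N := (le_max_right _ _).trans ((le_max_right _ _).trans hN)
  have e1 := h1 N hN1
  have e2 := h2' N hN2
  have e3 := h3' N hN3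
  rw [dist_zero_right] at e3
  set D : ℝ := ((lab c Q N (Q ^ k) 0).card : ℝ) / N with hD
  set V : ℝ := (N : ℝ)⁻¹ * ∑ n ∈ UU c Q 𝓛 N, Vk μ T (qq c Q π) A' Q k n with hV
  set E : ℝ := (N : ℝ)⁻¹ * ∑ t ∈ cls Q (2 * N),
          ‖koop μ T t (PZ (koop μ T) (iv μ A)) - PZ (koop μ T) (iv μ A)‖ with hE
  set b : ℝ := (N : ℝ)⁻¹ * (N : ℝ)⁻¹ * ∑ m ∈ lab c Q N (Q ^ k) 0, ∑ n ∈ cls Q N,
      (⟪Bn μ T A' n, koop μ T m (Bn μ T A' n)⟫_ℂ).re with hb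
  have e4 := sub_le_RN h hA Q k N
  -- the cube part
  have e5 : D * V - δ1 ≤ b := by
    have h5 : (∑ x ∈ 𝓛, CT μ T c Q π A' k x N).re =
      (N : ℝ)⁻¹ * (N : ℝ)⁻¹ * ∑ n ∈ UU c Q 𝓛 N, ∑ m ∈ lab c Q N (Q ^ k) 0,
        (⟪Bn μ T A' n, koop μ T m (Bn μ T A' n)⟫_ℂ).re - D * V := by
      unfold CT
      rw [Finset.sum_sub_distrib, ← Finset.mul_sum, ← Finset.mul_sum, ← Finset.mul_sum,
        ← UU_sum c Q 𝓛 hL, ← UU_sum c Q 𝓛 hL, Complex.sub_re, ← hD]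
      have a1 : ((N : ℂ)⁻¹ * (N : ℂ)⁻¹) = (((N : ℝ)⁻¹ * (N : ℝ)⁻¹ : ℝ) : ℂ) := by push_cast; rfl
      have a2 : ((N : ℂ)⁻¹) = (((N : ℝ)⁻¹ : ℝ) : ℂ) := by push_cast; rfl
      rw [a1, Complex.re_ofReal_mul, Complex.re_ofReal_mul, a2, Complex.re_ofReal_mul]
      simp only [Complex.re_sum]
      rfl
    have h6 := Complex.abs_re_le_norm (∑ x ∈ 𝓛, CT μ T c Q π A' k x N)
    rw [h5] at h6
    have h7 := (abs_le.1 (h6.trans e3.le)).1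
    have h8 : (N : ℝ)⁻¹ * (N : ℝ)⁻¹ * ∑ n ∈ UU c Q 𝓛 N, ∑ m ∈ lab c Q N (Q ^ k) 0,
        (⟪Bn μ T A' n, koop μ T m (Bn μ T A' n)⟫_ℂ).re ≤ b := by
      rw [hb, Finset.sum_comm (s := lab c Q N (Q ^ k) 0)]
      refine mul_le_mul_of_nonneg_left ?_ (by positivity)
      refine Finset.sum_le_sum_of_subset_of_nonneg (UU_sub c Q 𝓛 N) fun n hn _ => ?_
      refine Finset.sum_nonneg fun m hm => ?_
      exact Bn_pair_nonneg h hA' (mem_Ioc.1 (lab_sub (c := c) Q N (Q ^ k) 0 hm)).1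
        (mem_Ioc.1 (cls_sub Q N hn)).1
    linarith
  have hDpos : 0 < D := lt_trans (by positivity) e2
  have hR := RN_nonneg h hA N
  have e6 : D * (ε * V) ≤ RN μ T A N + δ + D * E := by
    have h9 : ε * (D * V - δ1) ≤ ε * b := mul_le_mul_of_nonneg_left e5 hε.le
    nlinarith
  have e7 : ε * V ≤ (RN μ T A N + δ) / D + E := by
    rw [← sub_le_iff_le_add, le_div_iff₀ hDpos]
    nlinarith
  refine e7.trans (add_le_add ?_ le_rfl)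
  rw [div_eq_mul_one_div]
  refine mul_le_mul_of_nonneg_left ?_ (by positivity)
  rw [div_le_div_iff₀ hDpos hd]
  linarith

end basic

end Pool.Agent.Run7.h982.QP
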