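import Pool.Agent.Run7.h982.QP.M2

set_option autoImplicit false
set_option linter.unusedSectionVars false

namespace Pool.Agent.Run7.h982.QP

open Finset Filter Topology MeasureTheory ProbabilityTheory
open scoped InnerProductSpace ENNReal
open Pool.Agent.K7.H83.MA

universe u

/-- the final numerical estimate -/
theorem numer {ε κ K Q η x y N R δ S W E L : ℝ} (hε : 0 < ε) (hκ : 0 < κ) (hK : 4 ≤ K * κ ^ 2)
    (hK0 : 0 < K) (hQ : 0 < Q) (hη : η = ε * κ ^ 2 / (8 * (ε * κ + 1))) (hN : 16 * Q ≤ N)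
    (hS : 0 < S) (hδ : δ = K ^ 2 * ε * κ ^ 2 / (16 * Q * S))
    (hx : (κ - η) / Q - κ / (16 * Q) ≤ x) (hy : y ≤ 1 / Q + 1 / N) (hW : W ≤ K ^ 2)
    (hW0 : 0 ≤ W) (hE : E ≤ η / Q)
    (h1 : (K ^ 2 * (2 * κ * x - κ ^ 2 * y) - K * y) / 2 ≤ L)
    (h2 : ε * L ≤ (R + δ) * S + E * W) (hy0 : 0 ≤ y) :
    K ^ 2 * ε * κ ^ 2 / (16 * Q * S) ≤ R := by
  have hη0 : 0 < η := by rw [hη]; positivity
  have e1 : (ε * κ + 1) * η = ε * κ ^ 2 / 8 := by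
    rw [hη]; field_simp
  have e2 : K ≤ K ^ 2 * κ ^ 2 / 4 := by nlinarith
  have e3 : K * y ≤ K ^ 2 * κ ^ 2 / 4 * y := mul_le_mul_of_nonneg_right e2 hy0
  have hN0 : 0 < N := by linarith
  have e4 : 1 / N ≤ 1 / (16 * Q) := one_div_le_one_div_of_le (by positivity) hN
  have e5 : 1 / (16 * Q) = (1 / Q) / 16 := by field_simp
  set t : ℝ := 1 / Q with ht
  have ht0 : 0 < t := by positivity
  have e6 : (κ - η) / Q = (κ - η) * t := by rw [ht]; ring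
  have e7 : κ / (16 * Q) = κ * t / 16 := by rw [ht]; field_simp
  have e8 : η / Q = η * t := by rw [ht]; ring
  rw [e6, e7] at hx
  rw [e8] at hE
  rw [e5] at e4
  have hy' : y ≤ 17 / 16 * t := by linarith
  have hK2 : 0 < K ^ 2 := by positivity
  -- lower bound of L
  have a1 : 2 * κ * ((κ - η) * t - κ * t / 16) ≤ 2 * κ * x :=
    mul_le_mul_of_nonneg_left hx (by positivity)
  have a2 : κ ^ 2 * y ≤ κ ^ 2 * (17 / 16 * t) := mul_le_mul_of_nonneg_left hy' (by positivity)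
  have a3 : κ ^ 2 / 2 * t - 2 * κ * η * t ≤ 2 * κ * x - 5 / 4 * (κ ^ 2 * y) := by
    have : 0 < κ ^ 2 * t := by positivity
    nlinarith
  have a4 : K ^ 2 * (κ ^ 2 / 4 * t - κ * η * t) ≤ L := by
    refine le_trans ?_ h1
    have : K ^ 2 * (κ ^ 2 / 2 * t - 2 * κ * η * t) ≤
        K ^ 2 * (2 * κ * x - 5 / 4 * (κ ^ 2 * y)) := mul_le_mul_of_nonneg_left a3 hK2.le
    nlinarith
  have a5 : ε * (K ^ 2 * (κ ^ 2 / 4 * t - κ * η * t)) ≤ (R + δ) * S + E * W :=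
    (mul_le_mul_of_nonneg_left a4 hε.le).trans h2
  have a6 : E * W ≤ K ^ 2 * η * t := by
    have b1 : E * W ≤ η * t * W := mul_le_mul_of_nonneg_right hE hW0
    have b2 : η * t * W ≤ η * t * K ^ 2 := mul_le_mul_of_nonneg_left hW (by positivity)
    linarith
  have a7 : δ * S = K ^ 2 * ε * κ ^ 2 / 16 * t := by
    rw [hδ, ht]; field_simp
  have a8 : K ^ 2 * ε * κ ^ 2 / (16 * Q * S) = (K ^ 2 * ε * κ ^ 2 / 16 * t) / S := by
    rw [ht]; field_simp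
  rw [a8, div_le_iff₀ hS]
  have a9 : K ^ 2 * t * ((ε * κ + 1) * η) = K ^ 2 * t * (ε * κ ^ 2 / 8) := by rw [e1]
  nlinarith

theorem t_MAIN (hCUBE : S_CUBE.{u}) (hDEN : S_DEN) (hSTEP : S_STEP1.{u}) (hVDC : S_VDC.{u})
    (hREC : S_REC.{u}) (hNPQ : S_NPQ.{u}) (hCOV : S_COV) : S_MAIN.{u} := by
  classical
  intro X _ _ μ _ r c T h A hA hpos
  obtain ⟨ε, hε, A', hA', hAA, hpos', hf⟩ := exists_level h hA hpos
  set κ : ℝ := (μ.real A') ^ 2 with hκ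
  have hκ0 : 0 < κ := by positivity
  obtain ⟨K₀, hK₀⟩ := exists_nat_ge (4 / κ ^ 2)
  obtain ⟨K, hKdef⟩ : ∃ K : ℕ, K = K₀ + 2 := ⟨_, rfl⟩
  have hK2 : 2 ≤ K := by omega
  have hKr : 4 / κ ^ 2 ≤ (K : ℝ) := by
    rw [hKdef]; push_cast; linarith
  have hKκ : 4 ≤ (K : ℝ) * κ ^ 2 := by rwa [div_le_iff₀ (by positivity)] at hKr
  have hKpos : (0 : ℝ) < K := by exact_mod_cast (by omega : 0 < K)
  obtain ⟨η, hη⟩ : ∃ η : ℝ, η = ε * κ ^ 2 / (8 * (ε * κ + 1)) := ⟨_, rfl⟩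
  have hη0 : 0 < η := by rw [hη]; positivity
  obtain ⟨Q1, hQ1, hrec⟩ := hREC X μ r c T h A' hA' η hη0
  obtain ⟨Q2, hQ2, hnpq⟩ := hNPQ (Lp ℂ 2 μ) r c (koop μ T) h.FG (PZ (koop μ T) (iv μ A))
    (PZ_mem _) (η / 2) (by positivity)
  obtain ⟨Q, hQdef⟩ : ∃ Q : ℕ, Q = Q1 * Q2 := ⟨_, rfl⟩
  have hQ : 0 < Q := by rw [hQdef]; exact Nat.mul_pos hQ1 hQ2
  have hQr : (0 : ℝ) < Q := by exact_mod_cast hQ
  obtain ⟨N1, hN1⟩ := hrec Q hQ (by rw [hQdef]; exact Dvd.intro _ rfl)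
  obtain ⟨N2, hN2⟩ := hnpq Q hQ (by rw [hQdef]; exact Dvd.intro_left _ rfl)
  obtain ⟨π, hπ⟩ := exists_rep c
  obtain ⟨𝓛, hL, hcov⟩ := hCOV r c Q hQ (κ / (16 * Q)) (by positivity)
  have hs : ∀ k : ℕ, 0 < k → ∃ d : ℝ, 0 < d ∧ ∀ δ : ℝ, 0 < δ → ∃ N₀ : ℕ, ∀ N : ℕ, N₀ ≤ N →
      ε * ((N : ℝ)⁻¹ * ∑ n ∈ UU c Q 𝓛 N, Vk μ T (qq c Q π) A' Q k n) ≤
        (RN μ T A N + δ) * (2 / d) + (N : ℝ)⁻¹ * ∑ t ∈ cls Q (2 * N),
          ‖koop μ T t (PZ (koop μ T) (iv μ A)) - PZ (koop μ T) (iv μ A)‖ := fun k hk =>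
    stepk hCUBE hDEN hSTEP h hA hA' hAA hε hf hQ hπ 𝓛 hL hk
  choose! d hd hstep using hs
  set S : ℝ := ∑ k ∈ Ico 1 K, ((K : ℝ) - k) * (2 / d k) with hS
  have hwk : ∀ k ∈ Ico 1 K, 0 < (K : ℝ) - k := by
    intro k hk
    rw [mem_Ico] at hk
    have : (k : ℝ) < K := by exact_mod_cast hk.2
    linarith
  have hSpos : 0 < S := by
    refine Finset.sum_pos (fun k hk => ?_) ⟨1, by rw [mem_Ico]; omega⟩
    have h1 := hwk k hk
    have h2 := hd k (by rw [mem_Ico] at hk; omega)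
    positivity
  obtain ⟨δ, hδ⟩ : ∃ δ : ℝ, δ = (K : ℝ) ^ 2 * ε * κ ^ 2 / (16 * Q * S) := ⟨_, rfl⟩
  have hδ0 : 0 < δ := by rw [hδ]; positivity
  have hev : ∀ᶠ N : ℕ in atTop, ∀ k ∈ Ico 1 K,
      ε * ((N : ℝ)⁻¹ * ∑ n ∈ UU c Q 𝓛 N, Vk μ T (qq c Q π) A' Q k n) ≤
        (RN μ T A N + δ) * (2 / d k) + (N : ℝ)⁻¹ * ∑ t ∈ cls Q (2 * N),
          ‖koop μ T t (PZ (koop μ T) (iv μ A)) - PZ (koop μ T) (iv μ A)‖ := by
    rw [Filter.eventually_all_finset]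
    intro k hk
    obtain ⟨N₀, h0⟩ := hstep k (by rw [mem_Ico] at hk; omega) δ hδ0
    exact eventually_atTop.2 ⟨N₀, h0⟩
  obtain ⟨N3, hN3⟩ := eventually_atTop.1 hev
  refine ⟨(K : ℝ) ^ 2 * ε * κ ^ 2 / (16 * Q * S), by rw [← hδ]; exact hδ0,
    max (max N1 N2) (max N3 (16 * Q)), fun N hN => ?_⟩
  have hNN1 : N1 ≤ N := (le_max_left _ _).trans ((le_max_left _ _).trans hN)
  have hNN2 : N2 ≤ N := (le_max_right _ _).trans ((le_max_left _ _).trans hN)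
  have hNN3 : N3 ≤ N := (le_max_left _ _).trans ((le_max_right _ _).trans hN)
  have hNQ : 16 * Q ≤ N := (le_max_right _ _).trans ((le_max_right _ _).trans hN)
  have hNQr : 16 * (Q : ℝ) ≤ N := by exact_mod_cast hNQ
  have hNpos : (0 : ℝ) < N := by linarith
  change _ ≤ RN μ T A N
  -- notation
  set E : ℝ := (N : ℝ)⁻¹ * ∑ t ∈ cls Q (2 * N),
          ‖koop μ T t (PZ (koop μ T) (iv μ A)) - PZ (koop μ T) (iv μ A)‖ with hE
  set mu' : ℕ → ℝ := fun n => (⟪iv μ A', koop μ T n (iv μ A')⟫_ℂ).re with hmu'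
  set x : ℝ := (N : ℝ)⁻¹ * ∑ n ∈ UU c Q 𝓛 N, mu' n with hx
  set y : ℝ := (N : ℝ)⁻¹ * ((UU c Q 𝓛 N).card : ℝ) with hy
  have hpos_n : ∀ n ∈ cls Q N, 0 < n := fun n hn => (mem_Ioc.1 (cls_sub Q N hn)).1
  have hmu1 : ∀ n, 0 < n → mu' n ≤ 1 := by
    intro n hn
    have h1 := Complex.re_le_norm (⟪e1 μ, Bn μ T A' n⟫_ℂ)
    rw [inner_e1_Bn h hA' hn] at h1
    have h2 := norm_inner_le_norm (𝕜 := ℂ) (e1 μ) (Bn μ T A' n)
    rw [inner_e1_Bn h hA' hn, e1_norm, one_mul] at h2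
    exact h1.trans (h2.trans (Bn_norm h hA' hn))
  refine numer (L := (N : ℝ)⁻¹ * ∑ n ∈ UU c Q 𝓛 N, ∑ k ∈ Ico 1 K,
      ((K : ℝ) - k) * Vk μ T (qq c Q π) A' Q k n)
    (W := ∑ k ∈ Ico 1 K, ((K : ℝ) - k)) (x := x) (y := y) (E := E) (N := (N : ℝ)) (η := η)
    (δ := δ) hε hκ0 hKκ hKpos hQr hη hNQr hSpos hδ ?_ ?_ ?_ ?_ ?_ ?_ ?_ ?_
  · -- x
    have h1 := hN1 N hNN1
    have h2 : ∑ n ∈ cls Q N, mu' n ≤ ∑ n ∈ UU c Q 𝓛 N, mu' n + κ / (16 * Q) * N := by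
      have h3 : ∑ n ∈ cls Q N, mu' n = ∑ n ∈ UU c Q 𝓛 N, mu' n +
          ∑ n ∈ (cls Q N).filter (fun n => (sp c Q n, gam c Q n) ∉ 𝓛), mu' n := by
        unfold UU
        exact (Finset.sum_filter_add_sum_filter_not _ _ _).symm
      rw [h3]
      refine add_le_add le_rfl ?_
      have h4 : ∑ n ∈ (cls Q N).filter (fun n => (sp c Q n, gam c Q n) ∉ 𝓛), mu' n ≤
          ∑ n ∈ (cls Q N).filter (fun n => (sp c Q n, gam c Q n) ∉ 𝓛), (1 : ℝ) :=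
        Finset.sum_le_sum fun n hn => hmu1 n (hpos_n n (Finset.mem_filter.1 hn).1)
      rw [Finset.sum_const, nsmul_eq_mul, mul_one] at h4
      refine h4.trans ?_
      have h5 := hcov N
      refine le_trans (le_of_eq ?_) h5
      congr 3
    have h6 : (κ - η) * ((N : ℝ) / Q) - κ / (16 * Q) * N ≤ ∑ n ∈ UU c Q 𝓛 N, mu' n := by
      linarith
    have h7 := mul_le_mul_of_nonneg_left h6 (inv_nonneg.2 hNpos.le)
    refine le_trans (le_of_eq ?_) h7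
    field_simp
  · -- y
    have h1 : ((UU c Q 𝓛 N).card : ℝ) ≤ (N : ℝ) / Q + 1 :=
      (Nat.cast_le.2 (Finset.card_le_card (UU_sub c Q 𝓛 N))).trans (cls_card hQ N)
    have h2 := mul_le_mul_of_nonneg_left h1 (inv_nonneg.2 hNpos.le)
    refine h2.trans (le_of_eq ?_)
    field_simp
  · -- W
    have h1 : ∑ k ∈ Ico 1 K, ((K : ℝ) - k) ≤ ∑ k ∈ Ico 1 K, (K : ℝ) :=
      Finset.sum_le_sum fun k _ => by
        have : (0 : ℝ) ≤ k := Nat.cast_nonneg k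
        linarith
    rw [Finset.sum_const, nsmul_eq_mul, Nat.card_Ico] at h1
    refine h1.trans ?_
    have h2 : ((K - 1 : ℕ) : ℝ) ≤ K := by exact_mod_cast Nat.sub_le K 1
    nlinarith
  · exact Finset.sum_nonneg fun k hk => (hwk k hk).le
  · -- E
    have h1 := hN2 (2 * N) (by omega)
    have h2 := mul_le_mul_of_nonneg_left h1 (inv_nonneg.2 hNpos.le)
    refine h2.trans (le_of_eq ?_)
    push_cast
    field_simp
  · -- L from below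
    have h1 : ∀ n ∈ UU c Q 𝓛 N, ((K : ℝ) ^ 2 * (2 * κ * mu' n - κ ^ 2) - K) / 2 ≤
        ∑ k ∈ Ico 1 K, ((K : ℝ) - k) * Vk μ T (qq c Q π) A' Q k n := by
      intro n hn
      have hn0 := hpos_n n (UU_sub c Q 𝓛 N hn)
      obtain ⟨d', hseq⟩ := seq_lab c Q hπ 1 0
      have h2 := hVDC (Lp ℂ 2 μ) r c (koop μ T) h.FG (qq c Q π) hseq.qpos Q hQ (e1 μ)
        e1_norm (fun n hn => e1_fix h hn) (Bn μ T A' n) K (by omega)
      refine le_trans ?_ h2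
      have h3 : ‖Bn μ T A' n‖ ^ 2 ≤ 1 := pow_le_one₀ (norm_nonneg _) (Bn_norm h hA' hn0)
      have h4 : 2 * κ * mu' n - κ ^ 2 ≤ ‖⟪e1 μ, Bn μ T A' n⟫_ℂ‖ ^ 2 := by
        have h5 : |mu' n| ≤ ‖⟪e1 μ, Bn μ T A' n⟫_ℂ‖ := by
          rw [inner_e1_Bn h hA' hn0]
          exact Complex.abs_re_le_norm _
        have h6 : (mu' n) ^ 2 ≤ ‖⟪e1 μ, Bn μ T A' n⟫_ℂ‖ ^ 2 := by
          rw [← sq_abs]
          exact pow_le_pow_left₀ (abs_nonneg _) h5 2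
        nlinarith [sq_nonneg (mu' n - κ)]
      have h7 : (K : ℝ) ^ 2 * (2 * κ * mu' n - κ ^ 2) ≤
          (K : ℝ) ^ 2 * ‖⟪e1 μ, Bn μ T A' n⟫_ℂ‖ ^ 2 := mul_le_mul_of_nonneg_left h4 (by positivity)
      have h8 : (K : ℝ) * ‖Bn μ T A' n‖ ^ 2 ≤ K * 1 := mul_le_mul_of_nonneg_left h3 hKpos.le
      linarith
    have h9 := Finset.sum_le_sum h1
    have h10 := mul_le_mul_of_nonneg_left h9 (inv_nonneg.2 hNpos.le)
    refine le_trans (le_of_eq ?_) h10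
    rw [hx, hy, ← Finset.sum_div, Finset.sum_sub_distrib, ← Finset.mul_sum,
      Finset.sum_sub_distrib, ← Finset.mul_sum, Finset.sum_const, Finset.sum_const,
      nsmul_eq_mul, nsmul_eq_mul]
    ring
  · -- the main inequality
    have h1 : ∑ k ∈ Ico 1 K, ((K : ℝ) - k) *
        (ε * ((N : ℝ)⁻¹ * ∑ n ∈ UU c Q 𝓛 N, Vk μ T (qq c Q π) A' Q k n)) ≤
        ∑ k ∈ Ico 1 K, ((K : ℝ) - k) * ((RN μ T A N + δ) * (2 / d k) + E) :=
      Finset.sum_le_sum fun k hk => mul_le_mul_of_nonneg_left (hN3 N hNN3 k hk) (hwk k hk).le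
    have h2 : ∑ k ∈ Ico 1 K, ((K : ℝ) - k) *
        (ε * ((N : ℝ)⁻¹ * ∑ n ∈ UU c Q 𝓛 N, Vk μ T (qq c Q π) A' Q k n)) =
        ε * ((N : ℝ)⁻¹ * ∑ n ∈ UU c Q 𝓛 N, ∑ k ∈ Ico 1 K,
          ((K : ℝ) - k) * Vk μ T (qq c Q π) A' Q k n) := by
      rw [Finset.sum_comm (s := UU c Q 𝓛 N), Finset.mul_sum, Finset.mul_sum]
      refine Finset.sum_congr rfl fun k _ => ?_
      rw [← Finset.mul_sum]
      ring
    have h3 : ∑ k ∈ Ico 1 K, ((K : ℝ) - k) * ((RN μ T A N + δ) * (2 / d k) + E) =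
        (RN μ T A N + δ) * S + E * ∑ k ∈ Ico 1 K, ((K : ℝ) - k) := by
      rw [hS, Finset.mul_sum, Finset.mul_sum, ← Finset.sum_add_distrib]
      refine Finset.sum_congr rfl fun k _ => ?_
      ring
    rw [h2, h3] at h1
    exact h1
  · rw [hy]; positivity

end Pool.Agent.Run7.h982.QP
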